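import Pool.Agent.Helper598.CenterZG5

/-!
# Berman's question for nilpotent groups

For a finite nilpotent group `G` and any finite group `H`, every ring isomorphism
`Z(ℤG) ≅ Z(ℤH)` maps class sums to plus or minus class sums. In particular every automorphism of
`Z(ℤG)`, `G` finite nilpotent, induces a monomial permutation on the set of class sums.
For arbitrary finite groups the class sums of the elements of the hypercentre are mapped to plus or
minus class sums.
-/

namespace Pool.Agent.Results.MP_490369_al.Nilpotent

open Classical in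
/-- The class sum of the conjugacy class `c`, as an element of the integral group ring. -/
noncomputable def classSum {G : Type} [Group G] [Fintype G] (c : ConjClasses G) :
    MonoidAlgebra ℤ G :=
  ∑ g ∈ Finset.univ.filter (fun g : G => ConjClasses.mk g = c), MonoidAlgebra.single g (1 : ℤ)

/-- The centre `Z(ℤG)` of the integral group ring. -/
abbrev Centre (G : Type) [Group G] : Type := ↥(Subring.center (MonoidAlgebra ℤ G))

variable {G H : Type} [Group G] [Fintype G] [Group H] [Fintype H]

/-- `σ` maps the class sum of `c` to `ε` times the class sum of `d`. -/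
def MapsTo (σ : Centre G ≃+* Centre H) (c : ConjClasses G) (ε : ℤ) (d : ConjClasses H) : Prop :=
  ∀ x : Centre G, (x : MonoidAlgebra ℤ G) = classSum c →
    ((σ x : Centre H) : MonoidAlgebra ℤ H) = ε • classSum d

/-- `σ` is monomial: it permutes the class sums up to signs. -/
def IsMonomial (σ : Centre G ≃+* Centre H) : Prop :=
  ∃ (π : ConjClasses G ≃ ConjClasses H) (ε : ConjClasses G → ℤ),
    (∀ c, ε c = 1 ∨ ε c = -1) ∧ ∀ c, MapsTo σ c (ε c) (π c)

/-- `σ` maps the class sum of the class of `g` to plus or minus the class sum of a class of the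
same size. -/
def GoodAt (σ : Centre G ≃+* Centre H) (g : G) : Prop :=
  ∃ (h : H) (ε : ℤ), (ε = 1 ∨ ε = -1) ∧ MapsTo σ (ConjClasses.mk g) ε (ConjClasses.mk h) ∧
    Nat.card {y : H // ConjClasses.mk y = ConjClasses.mk h} =
      Nat.card {y : G // ConjClasses.mk y = ConjClasses.mk g}

open Pool.Agent.Helper598.CenterZG

lemma card_eq (c : ConjClasses G) : N2 (Pool.Agent.Helper598.CenterZG.classSum c) =
    ((Nat.card {y : G // ConjClasses.mk y = c} : ℕ) : ℤ) := by
  classical
  rw [N2_classSum, Nat.card_eq_fintype_card, Fintype.card_subtype]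
  simp only [coeff_classSum]
  rw [Finset.sum_boole]

lemma goodAt_iff (σ : Centre G ≃+* Centre H) (g : G) :
    GoodAt σ g ↔ GoodC σ (ConjClasses.mk g) := by
  constructor
  · rintro ⟨h, ε, hε, hσ, hN⟩
    refine ⟨ConjClasses.mk h, ε, hε, Subtype.ext (hσ _ rfl), ?_⟩
    rw [card_eq, card_eq, hN]
  · rintro ⟨d, ε, hε, hσ, hN⟩
    obtain ⟨h, rfl⟩ := ConjClasses.exists_rep d
    refine ⟨h, ε, hε, fun x hx => ?_, ?_⟩
    · have hx' : x = csZ (ConjClasses.mk g) := Subtype.ext hx
      rw [hx', hσ]
      rfl
    · rw [card_eq, card_eq] at hN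
      exact_mod_cast hN

/-- **Main theorem.** -/
theorem result :
    -- (A) automorphisms of the centre, for nilpotent groups
    (∀ (G : Type) [Group G] [Fintype G], Group.IsNilpotent G →
      ∀ σ : Centre G ≃+* Centre G, IsMonomial σ) ∧
    -- (B) isomorphisms between centres, `G` nilpotent and `H` arbitrary
    (∀ (G H : Type) [Group G] [Fintype G] [Group H] [Fintype H], Group.IsNilpotent G →
      ∀ σ : Centre G ≃+* Centre H, IsMonomial σ) ∧
    -- (C) arbitrary finite groups: if `σ` is good at all the commutators `[g, k]` then it is good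
    -- at `g`
    (∀ (G H : Type) [Group G] [Fintype G] [Group H] [Fintype H] (σ : Centre G ≃+* Centre H)
      (g : G), (∀ k : G, GoodAt σ (g * k * g⁻¹ * k⁻¹)) → GoodAt σ g) ∧
    -- (D) arbitrary finite groups: the classes in the hypercentre
    (∀ (G H : Type) [Group G] [Fintype G] [Group H] [Fintype H] (σ : Centre G ≃+* Centre H)
      (n : ℕ) (g : G), g ∈ Subgroup.upperCentralSeries G n → GoodAt σ g) := by
  have key : ∀ (G H : Type) [Group G] [Fintype G] [Group H] [Fintype H], Group.IsNilpotent G →
      ∀ σ : Centre G ≃+* Centre H, IsMonomial σ := by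
    intro G H _ _ _ _ hG σ
    obtain ⟨n, hn⟩ := hG.nilpotent
    have hgood : ∀ c, GoodC σ c := by
      intro c
      obtain ⟨g, rfl⟩ := ConjClasses.exists_rep c
      exact good_upper σ n g (by rw [hn]; exact Subgroup.mem_top g)
    obtain ⟨π, ε, h1, h2⟩ := monomial_of_good σ hgood
    refine ⟨π, ε, h1, fun c x hx => ?_⟩
    have hx' : x = csZ c := Subtype.ext hx
    rw [hx', h2 c]
    rfl
  refine ⟨fun G _ _ hG σ => key G G hG σ, key, ?_, ?_⟩
  · intro G H _ _ _ _ σ g hk
    rw [goodAt_iff]
    exact good_step σ g (fun k => (goodAt_iff σ _).1 (hk k))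
  · intro G H _ _ _ _ σ n g hg
    rw [goodAt_iff]
    exact good_upper σ n g hg

end Pool.Agent.Results.MP_490369_al.Nilpotent
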